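import Pool.Agent.H626R2.Loc.EDefs
import Pool.Agent.H771R2.LocS1

/-!
# E1: the coefficients of `ren s σ` for simple `σ` with few exponents per variable

Adapted from `coeff_ren_sumS` (helper771, helper584), `coeff_ren_prodS` (helper13, helper862) and
`coefFin_simpleS` (helper742).
-/

set_option autoImplicit false

namespace Pool.Agent.H626R2.Loc

open MvPolynomial

namespace E1

variable {K : Type} [Field K] {n : ℕ}

theorem fewExp_coeff_ren {r : ℕ} (s : Fin r → Fin n) (hs : Function.Injective s) {d : ℕ}
    (q : MvPolynomial (Fin n) K) (hq : FewExp d q) (α : Fin r →₀ ℕ) :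
    FewExp d (coeff α (ren s q)) := by
  classical
  intro i
  refine (Finset.card_le_card ?_).trans (hq i)
  intro x hx
  rw [Finset.mem_insert, Finset.mem_image] at hx ⊢
  rcases hx with hx | ⟨β, hβ, rfl⟩
  · exact Or.inl hx
  · rw [S1.coeff_ren s hs] at hβ
    have h1 := support_sum hβ
    rw [Finset.mem_biUnion] at h1
    obtain ⟨m, hm, hβ'⟩ := h1
    have h2 := support_monomial_subset hβ'
    rw [Finset.mem_singleton] at h2
    rw [h2]
    unfold S1.de
    rw [Finsupp.filter_apply]
    by_cases hb : ¬ ∃ b, s b = i
    · rw [if_pos hb]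
      exact Or.inr ⟨m, (Finset.mem_filter.1 hm).1, rfl⟩
    · rw [if_neg hb]
      exact Or.inl rfl

/-- the exponents of the variable `t b`, and zero -/
def ex {r : ℕ} (t : Fin r → Fin n) (q : MvPolynomial (Fin n) K) (b : Fin r) : Finset ℕ :=
  insert 0 (q.support.image fun e => e (t b))

theorem mem_ex_of_coeff {r : ℕ} (t : Fin r → Fin n) (ht : Function.Injective t)
    (q : MvPolynomial (Fin n) K) (α : Fin r →₀ ℕ) (h : coeff α (ren t q) ≠ 0) (b : Fin r) :
    α b ∈ ex t q b := by
  classical
  rw [S1.coeff_ren t ht] at h
  obtain ⟨m, hm, -⟩ := Finset.exists_ne_zero_of_sum_ne_zero h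
  rw [Finset.mem_filter] at hm
  rw [← hm.2]
  unfold ex
  rw [Finset.mem_insert, Finset.mem_image]
  exact Or.inr ⟨m, hm.1, rfl⟩

theorem card_pi {r k d : ℕ} (hr : r ≤ k) (hd : 1 ≤ d) (t : Fin r → Fin n)
    (q : MvPolynomial (Fin n) K) (hq : FewExp d q) :
    (Fintype.piFinset (ex t q)).card ≤ d ^ k := by
  rw [Fintype.card_piFinset]
  calc ∏ b, (ex t q b).card ≤ ∏ _b : Fin r, d := Finset.prod_le_prod' fun b _ => hq (t b)
    _ = d ^ r := by rw [Finset.prod_const, Finset.card_univ, Fintype.card_fin]
    _ ≤ d ^ k := Nat.pow_le_pow_right hd hr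

/-- the index set -/
noncomputable def idx {r : ℕ} (t : Fin r → Fin n) (q : MvPolynomial (Fin n) K) :
    Finset (Fin r →₀ ℕ) :=
  (Fintype.piFinset (ex t q)).map Finsupp.equivFunOnFinite.symm.toEmbedding

theorem mem_idx {r : ℕ} (t : Fin r → Fin n) (q : MvPolynomial (Fin n) K) (α : Fin r →₀ ℕ) :
    α ∈ idx t q ↔ ∀ b, α b ∈ ex t q b := by
  unfold idx
  rw [Finset.mem_map]
  constructor
  · rintro ⟨f, hf, rfl⟩ b
    exact Fintype.mem_piFinset.mp hf b
  · intro h
    refine ⟨Finsupp.equivFunOnFinite α, Fintype.mem_piFinset.mpr h, ?_⟩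
    exact Equiv.symm_apply_apply _ _

theorem card_idx {r k d : ℕ} (hr : r ≤ k) (hd : 1 ≤ d) (t : Fin r → Fin n)
    (q : MvPolynomial (Fin n) K) (hq : FewExp d q) : (idx t q).card ≤ d ^ k := by
  unfold idx
  rw [Finset.card_map]
  exact card_pi hr hd t q hq

open C1d in
theorem ren_sum_univ {r : ℕ} (s : Fin r → Fin n) (hs : Function.Injective s)
    (u : Fin n → Polynomial K) :
    ren s (∑ m, Polynomial.aeval (X m : MvPolynomial (Fin n) K) (u m))
        = MvPolynomial.map (C : K →+* MvPolynomial (Fin n) K)
            (∑ b, Polynomial.aeval (X b : MvPolynomial (Fin r) K) (u (s b))) +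
          C (∑ m ∈ (Finset.univ.image s)ᶜ, Polynomial.aeval (X m) (u m)) := by
  classical
  set I : Finset (Fin n) := Finset.univ.image s with hI
  rw [← Finset.sum_add_sum_compl I, map_add]
  congr 1
  · rw [hI, Finset.sum_image (fun a _ b _ h => hs h), map_sum, map_sum]
    apply Finset.sum_congr rfl
    intro b _
    rw [← Polynomial.aeval_algHom_apply, ren_X_alive s hs]
    have h2 : (MvPolynomial.map (C : K →+* MvPolynomial (Fin n) K)
        (Polynomial.aeval (X b : MvPolynomial (Fin r) K) (u (s b))))
        = MvPolynomial.mapAlgHom (Algebra.ofId K (MvPolynomial (Fin n) K))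
          (Polynomial.aeval (X b : MvPolynomial (Fin r) K) (u (s b))) := rfl
    rw [h2, ← Polynomial.aeval_algHom_apply]
    congr 1
    simp [MvPolynomial.mapAlgHom_apply]
  · rw [map_sum, map_sum]
    apply Finset.sum_congr rfl
    intro i hi
    rw [← Polynomial.aeval_algHom_apply, ren_X_dead s i]
    · have h2 : (C (Polynomial.aeval (X i : MvPolynomial (Fin n) K) (u i)) :
          MvPolynomial (Fin r) (MvPolynomial (Fin n) K))
          = IsScalarTower.toAlgHom K (MvPolynomial (Fin n) K)
            (MvPolynomial (Fin r) (MvPolynomial (Fin n) K))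
            (Polynomial.aeval (X i : MvPolynomial (Fin n) K) (u i)) := rfl
      rw [h2, ← Polynomial.aeval_algHom_apply]
      rfl
    · rintro ⟨b, hb⟩
      apply Finset.mem_compl.mp hi
      rw [hI, ← hb]
      exact Finset.mem_image_of_mem s (Finset.mem_univ b)

open C1d in
theorem ren_prod_univ {r : ℕ} (s : Fin r → Fin n) (hs : Function.Injective s)
    (u : Fin n → Polynomial K) :
    ren s (∏ m, Polynomial.aeval (X m : MvPolynomial (Fin n) K) (u m))
        = MvPolynomial.map (C : K →+* MvPolynomial (Fin n) K)
            (∏ b, Polynomial.aeval (X b : MvPolynomial (Fin r) K) (u (s b))) *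
          C (∏ m ∈ (Finset.univ.image s)ᶜ, Polynomial.aeval (X m) (u m)) := by
  classical
  set I : Finset (Fin n) := Finset.univ.image s with hI
  rw [← Finset.prod_mul_prod_compl I, map_mul]
  congr 1
  · rw [hI, Finset.prod_image (fun a _ b _ h => hs h), map_prod, map_prod]
    apply Finset.prod_congr rfl
    intro b _
    rw [← Polynomial.aeval_algHom_apply, ren_X_alive s hs]
    have h2 : (MvPolynomial.map (C : K →+* MvPolynomial (Fin n) K)
        (Polynomial.aeval (X b : MvPolynomial (Fin r) K) (u (s b))))
        = MvPolynomial.mapAlgHom (Algebra.ofId K (MvPolynomial (Fin n) K))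
          (Polynomial.aeval (X b : MvPolynomial (Fin r) K) (u (s b))) := rfl
    rw [h2, ← Polynomial.aeval_algHom_apply]
    congr 1
    simp [MvPolynomial.mapAlgHom_apply]
  · rw [map_prod, map_prod]
    apply Finset.prod_congr rfl
    intro i hi
    rw [← Polynomial.aeval_algHom_apply, ren_X_dead s i]
    · have h2 : (C (Polynomial.aeval (X i : MvPolynomial (Fin n) K) (u i)) :
          MvPolynomial (Fin r) (MvPolynomial (Fin n) K))
          = IsScalarTower.toAlgHom K (MvPolynomial (Fin n) K)
            (MvPolynomial (Fin r) (MvPolynomial (Fin n) K))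
            (Polynomial.aeval (X i : MvPolynomial (Fin n) K) (u i)) := rfl
      rw [h2, ← Polynomial.aeval_algHom_apply]
      rfl
    · rintro ⟨b, hb⟩
      apply Finset.mem_compl.mp hi
      rw [hI, ← hb]
      exact Finset.mem_image_of_mem s (Finset.mem_univ b)

end E1

section e

variable {K : Type} [Field K] {n : ℕ}

/-- E1a. -/
theorem coefFin_simpleE {L s d k : ℕ} (hL : 1 ≤ L) (hd : 1 ≤ d) :
    CoefFin (SimpleE n K L s d) k (d ^ k) := by
  classical
  intro r hr t ht σ hσ
  rcases hσ with ⟨u, q, hu, hsp, hq, rfl⟩ | ⟨u, q, hu, hsp, hq, rfl⟩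
  · set I : Finset (Fin n) := Finset.univ.image t with hI
    set U : MvPolynomial (Fin n) K := ∑ m ∈ Iᶜ, Polynomial.aeval (X m) (u m) with hU
    refine ⟨(E1.idx t q).image fun α => (if α = 0 then U else 0) + coeff α (ren t q),
      Finset.card_image_le.trans (E1.card_idx hr hd t q hq), ?_, ?_⟩
    · intro g hg
      obtain ⟨α, -, rfl⟩ := Finset.mem_image.mp hg
      left
      refine ⟨fun m => if α = 0 then (if m ∈ I then 0 else u m) else 0,
        coeff α (ren t q), ?_, (S1.card_support_coeff_ren t ht q _).trans hsp,
        E1.fewExp_coeff_ren t ht q hq α, ?_⟩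
      · intro m
        by_cases h0 : α = 0
        · by_cases h1 : m ∈ I
          · simp [h0, h1]
          · simp only [h0, if_true, h1, if_false]
            exact hu m
        · simp [h0]
      · congr 1
        by_cases h0 : α = 0
        · simp only [if_pos h0]
          rw [← Finset.sum_add_sum_compl I
            (fun m => Polynomial.aeval (X m : MvPolynomial (Fin n) K) (if m ∈ I then 0 else u m))]
          have h1 : ∑ m ∈ I, Polynomial.aeval (X m : MvPolynomial (Fin n) K)
              (if m ∈ I then 0 else u m) = 0 := by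
            apply Finset.sum_eq_zero
            intro m hm
            rw [if_pos hm, map_zero]
          rw [h1, zero_add, hU]
          apply Finset.sum_congr rfl
          intro m hm
          rw [if_neg (Finset.mem_compl.mp hm)]
        · simp only [if_neg h0, map_zero, Finset.sum_const_zero]
    · intro m
      rw [map_add, E1.ren_sum_univ t ht u, ← hI, ← hU, coeff_add, coeff_add, coeff_map, add_assoc]
      apply Subalgebra.add_mem
      · exact Subalgebra.algebraMap_mem _ _
      · by_cases hm : m ∈ E1.idx t q
        · apply Algebra.subset_adjoin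
          rw [Finset.coe_image]
          refine ⟨m, hm, ?_⟩
          simp only [coeff_C]
          congr 1
          by_cases h0 : m = 0
          · rw [if_pos h0, if_pos h0.symm]
          · rw [if_neg h0, if_neg (Ne.symm h0)]
        · have h0 : m ≠ 0 := by
            rintro rfl
            apply hm
            rw [E1.mem_idx]
            intro b
            exact Finset.mem_insert_self _ _
          have h2 : coeff m (ren t q) = 0 := by
            by_contra hb
            apply hm
            rw [E1.mem_idx]
            exact E1.mem_ex_of_coeff t ht q m hb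
          rw [h2, coeff_C, if_neg (Ne.symm h0), add_zero]
          exact Subalgebra.zero_mem _
  · set I : Finset (Fin n) := Finset.univ.image t with hI
    set U : MvPolynomial (Fin n) K := ∏ m ∈ Iᶜ, Polynomial.aeval (X m) (u m) with hU
    refine ⟨(E1.idx t q).image fun α => U * coeff α (ren t q),
      Finset.card_image_le.trans (E1.card_idx hr hd t q hq), ?_, ?_⟩
    · intro g hg
      obtain ⟨α, -, rfl⟩ := Finset.mem_image.mp hg
      right
      refine ⟨fun m => if m ∈ I then 1 else u m, coeff α (ren t q), ?_,
        (S1.card_support_coeff_ren t ht q α).trans hsp, E1.fewExp_coeff_ren t ht q hq α, ?_⟩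
      · intro m
        dsimp only
        split_ifs
        · rw [← Polynomial.C_1, Polynomial.support_C one_ne_zero, Finset.card_singleton]
          exact hL
        · exact hu m
      · congr 1
        rw [← Finset.prod_mul_prod_compl I
          (fun m => Polynomial.aeval (X m : MvPolynomial (Fin n) K) (if m ∈ I then 1 else u m))]
        have h1 : ∏ m ∈ I, Polynomial.aeval (X m : MvPolynomial (Fin n) K)
            (if m ∈ I then 1 else u m) = 1 := by
          apply Finset.prod_eq_one
          intro m hm
          rw [if_pos hm, map_one]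
        rw [h1, one_mul, hU]
        apply Finset.prod_congr rfl
        intro m hm
        rw [if_neg (Finset.mem_compl.mp hm)]
    · intro m
      rw [map_mul, E1.ren_prod_univ t ht u, ← hI, ← hU, mul_assoc, coeff_mul]
      apply Subalgebra.sum_mem
      rintro ⟨a, b⟩ _
      apply Subalgebra.mul_mem
      · rw [coeff_map]
        exact Subalgebra.algebraMap_mem _ _
      · rw [coeff_C_mul]
        by_cases hb : coeff b (ren t q) = 0
        · rw [hb, mul_zero]; exact Subalgebra.zero_mem _
        · apply Algebra.subset_adjoin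
          rw [Finset.coe_image]
          refine ⟨b, ?_, rfl⟩
          exact (E1.mem_idx t q b).mpr (E1.mem_ex_of_coeff t ht q b hb)

end e

end Pool.Agent.H626R2.Loc
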